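import Pool.Agent.Y34.HB.Stm

set_option autoImplicit false

/-!
Job HB-KEY of helper34: isolation of flats.
-/

universe u v

open Metric Set Filter Topology
open Pool.Agent.TH60.FP

namespace Pool.Agent.Y363.HB

open Pool.Agent.Y34.HB

/-- the distance to a flat is 1-Lipschitz -/
lemma lip {X : Type u} [MetricSpace X] {k : ℕ} {f : E k → X} (hf : Isometry f) (S : Set X) (z z' : E k) :
    infDist (f z) S ≤ infDist (f z') S + ‖z - z'‖ := by
  have h1 := infDist_le_infDist_add_dist (s := S) (x := f z) (y := f z')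
  rw [hf.dist_eq, dist_eq_norm] at h1
  exact h1

theorem t (_h1 : S_CONST.{u}) (h2 : S_LIM.{u}) : S_KEY.{u, v} := by
  intro X _ G _ _ geo k L fam hyp M0 hM0 M1
  by_contra hcon
  push Not at hcon
  haveI := geo.proper
  haveI := geo.isom
  obtain ⟨K, hK, hKc⟩ := geo.cc
  choose f hfL h hhL hnear hnot using fun n : ℕ => hcon n
  set M2 : ℝ := max M1 M0 + 1 with hM2
  have hM21 : M1 < M2 := by have := le_max_left M1 M0; linarith
  have hM20 : M0 < M2 := by have := le_max_right M1 M0; linarith
  have hfi : ∀ n, Isometry (f n) := fun n => fam.isom _ (hfL n)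
  have hhi : ∀ n, Isometry (h n) := fun n => fam.isom _ (hhL n)
  -- the point of minimal norm
  have hz : ∀ n : ℕ, ∃ z : E k, M2 ≤ infDist (f n z) (range (h n)) ∧
      (∀ z', ‖z'‖ < ‖z‖ → infDist (f n z') (range (h n)) < M2) ∧ (n : ℝ) < ‖z‖ := by
    intro n
    set S : Set (E k) := {z | M2 ≤ infDist (f n z) (range (h n))} with hS
    have hSc : IsClosed S := by
      refine isClosed_le continuous_const ?_
      exact (continuous_infDist_pt _).comp (hfi n).continuous
    have hSn : S.Nonempty := by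
      by_contra hne
      rw [not_nonempty_iff_eq_empty] at hne
      apply hnot n
      refine ⟨M2, fun z => ?_⟩
      by_contra hz
      have : z ∈ S := (not_le.1 hz).le
      rw [hne] at this
      exact this
    obtain ⟨z, hzS, hzd⟩ := hSc.exists_infDist_eq_dist hSn 0
    refine ⟨z, hzS, fun z' hz' => ?_, ?_⟩
    · by_contra hz2
      have h3 : z' ∈ S := not_lt.1 hz2
      have h4 := infDist_le_dist_of_mem (x := 0) h3
      rw [hzd, dist_zero_left, dist_zero_left] at h4
      linarith
    · by_contra hn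
      have h3 := hnear n z (not_lt.1 hn)
      have h4 : M2 ≤ infDist (f n z) (range (h n)) := hzS
      linarith
  choose z hz1 hz2 hz3 using hz
  have hzpos : ∀ n, 0 < ‖z n‖ := fun n => lt_of_le_of_lt (Nat.cast_nonneg n) (hz3 n)
  have hz4 : ∀ n, 1 ≤ n → infDist (f n (z n)) (range (h n)) < M2 + 1 := by
    intro n hn
    have hn1 : (1 : ℝ) ≤ n := by exact_mod_cast hn
    have h3 := hzpos n
    have h4 : 1 < ‖z n‖ := lt_of_le_of_lt hn1 (hz3 n)
    set z' : E k := (1 - 1 / ‖z n‖) • z n with hz'
    have h5 : ‖z'‖ < ‖z n‖ := by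
      rw [hz', norm_smul, Real.norm_eq_abs, abs_of_nonneg]
      · have : 0 < 1 / ‖z n‖ := by positivity
        nlinarith
      · have : 1 / ‖z n‖ ≤ 1 := by
          rw [div_le_one h3]; exact h4.le
        linarith
    have h6 : ‖z n - z'‖ = 1 := by
      have : z n - z' = (1 / ‖z n‖) • z n := by
        rw [hz']
        module
      rw [this, norm_smul, Real.norm_eq_abs, abs_of_pos (by positivity)]
      field_simp
    have h7 := lip (hfi n) (range (h n)) (z n) z'
    have h8 := hz2 n z' h5
    linarith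
  have hw : ∀ n, ∃ w : E k, 1 ≤ n → dist (f n (z n)) (h n w) < M2 + 1 := by
    intro n
    by_cases hn : 1 ≤ n
    · obtain ⟨y, ⟨w, rfl⟩, hy⟩ := (infDist_lt_iff (range_nonempty (h n))).1 (hz4 n hn)
      exact ⟨w, fun _ => hy⟩
    · exact ⟨0, fun h' => absurd h' hn⟩
  choose w hw using hw
  choose γ hγ using hKc
  set g : ℕ → G := fun n => γ (f (n + 1) (z (n + 1))) with hg
  set F : ℕ → E k → X := fun n v => g n • f (n + 1) (z (n + 1) + v) with hF
  set H : ℕ → E k → X := fun n v => g n • h (n + 1) (w (n + 1) + v) with hH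
  have hFL : ∀ n, F n ∈ L := fun n => fam.smul _ (fam.trans _ (hfL _) (z (n + 1))) (g n)
  have hHL : ∀ n, H n ∈ L := fun n => fam.smul _ (fam.trans _ (hhL _) (w (n + 1))) (g n)
  have hFi : ∀ n, Isometry (F n) := fun n => fam.isom _ (hFL n)
  have hHi : ∀ n, Isometry (H n) := fun n => fam.isom _ (hHL n)
  have hF0 : ∀ n, F n 0 ∈ K := by
    intro n
    simp only [hF, add_zero]
    exact hγ _
  have hFH0 : ∀ n, dist (F n 0) (H n 0) < M2 + 1 := by
    intro n
    simp only [hF, hH, add_zero, dist_smul]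
    exact hw (n + 1) (by omega)
  -- the distance function
  have hD : ∀ n v, infDist (F n v) (range (H n)) = infDist (f (n + 1) (z (n + 1) + v)) (range (h (n + 1))) := by
    intro n v
    have h3 : range (H n) = (fun x => g n • x) '' range (h (n + 1)) := by
      ext y
      constructor
      · rintro ⟨a, rfl⟩
        exact ⟨_, mem_range_self (w (n + 1) + a), rfl⟩
      · rintro ⟨_, ⟨a, rfl⟩, rfl⟩
        refine ⟨a - w (n + 1), ?_⟩
        simp only [hH]
        congr 2
        abel
    rw [h3]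
    exact infDist_image (isometry_smul X (g n))
  have hM2p : 0 ≤ M2 + 1 := le_trans dist_nonneg (hFH0 0).le
  obtain ⟨F', hF'i, hF't, hF'u⟩ := h2 X k K hK F hFi hF0
  obtain ⟨H', hH'i, hH't, hH'u⟩ := h2 X k (cthickening (M2 + 1) K) hK.cthickening H hHi (by
    intro n
    refine mem_cthickening_of_dist_le _ (F n 0) _ _ (hF0 n) ?_
    rw [dist_comm]
    exact (hFH0 n).le)
  have hF'L : F' ∈ L := fam.closed.mem_of_tendsto hF't (Eventually.of_forall hFL)
  have hH'L : H' ∈ L := fam.closed.mem_of_tendsto hH't (Eventually.of_forall hHL)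
  -- the directions
  set uu : ℕ → E k := fun n => -(‖z (n + 1)‖⁻¹ • z (n + 1)) with huu
  have huu1 : ∀ n, uu n ∈ sphere (0 : E k) 1 := by
    intro n
    have h3 := hzpos (n + 1)
    rw [mem_sphere_zero_iff_norm, huu, norm_neg, norm_smul, norm_inv, norm_norm]
    field_simp
  obtain ⟨a, ha1, ha2⟩ := (isCompact_sphere (0 : E k) 1).ultrafilter_le_nhds
    ((hyperfilter ℕ).map uu) (by
      rw [Ultrafilter.coe_map, le_principal_iff, mem_map]
      exact univ_mem' huu1)
  have hut : Tendsto uu (hyperfilter ℕ : Filter ℕ) (𝓝 a) := ha2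
  have han : ‖a‖ = 1 := mem_sphere_zero_iff_norm.1 ha1
  have hhyp : (hyperfilter ℕ : Filter ℕ) ≤ atTop := by
    rw [← Nat.cofinite_eq_atTop]
    exact hyperfilter_le_cofinite
  have hnorm : Tendsto (fun n => ‖z (n + 1)‖) (hyperfilter ℕ : Filter ℕ) atTop := by
    refine Tendsto.mono_left ?_ hhyp
    refine tendsto_atTop_mono (fun n => ?_) tendsto_natCast_atTop_atTop
    have h3 := hz3 (n + 1)
    push_cast at h3
    linarith
  -- the open half space
  have hopen : ∀ v : E k, 0 < inner ℝ a v → infDist (F' v) (range H') ≤ M2 := by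
    intro v hv
    refine le_of_forall_pos_le_add fun ε hε => ?_
    have e1 : ∀ᶠ n in (hyperfilter ℕ : Filter ℕ), inner ℝ a v / 2 < inner ℝ (uu n) v := by
      have h3 : Tendsto (fun n => inner ℝ (uu n) v) (hyperfilter ℕ : Filter ℕ) (𝓝 (inner ℝ a v)) :=
        hut.inner tendsto_const_nhds
      exact h3.eventually (lt_mem_nhds (by linarith))
    have e2 := hnorm.eventually_ge_atTop (‖v‖ ^ 2 / inner ℝ a v)
    have e3 := hF'u ‖v‖ (ε / 2) (by linarith)
    have e4 := hH'u (2 * M2 + 1 + ‖v‖) (ε / 2) (by linarith)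
    obtain ⟨n, n1, n2, n3, n4⟩ := (e1.and (e2.and (e3.and e4))).exists
    have hlt : ‖z (n + 1) + v‖ < ‖z (n + 1)‖ := by
      have h3 := hzpos (n + 1)
      have h4 : inner ℝ (uu n) v = -(‖z (n + 1)‖⁻¹ * inner ℝ (z (n + 1)) v) := by
        rw [huu, inner_neg_left, real_inner_smul_left]
      have h5 : inner ℝ (z (n + 1)) v = -(‖z (n + 1)‖ * inner ℝ (uu n) v) := by
        rw [h4]
        field_simp
      have h6 := norm_add_sq_real (z (n + 1)) v
      rw [div_le_iff₀ hv] at n2
      have h7 : ‖z (n + 1)‖ * (inner ℝ a v / 2) < ‖z (n + 1)‖ * inner ℝ (uu n) v :=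
        mul_lt_mul_of_pos_left n1 h3
      have h8 : ‖z (n + 1) + v‖ ^ 2 < ‖z (n + 1)‖ ^ 2 := by
        rw [h6, h5]
        linarith
      exact lt_of_pow_lt_pow_left₀ 2 (norm_nonneg _) h8
    have h3 := hz2 (n + 1) _ hlt
    rw [← hD n v] at h3
    obtain ⟨y, ⟨b, rfl⟩, hy⟩ := (infDist_lt_iff (range_nonempty (H n))).1 h3
    have hb : ‖b‖ ≤ 2 * M2 + 1 + ‖v‖ := by
      have h4 : dist (H n b) (H n 0) = ‖b‖ := by
        rw [(hHi n).dist_eq, dist_zero_right]
      have h5 : dist (F n v) (F n 0) = ‖v‖ := by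
        rw [(hFi n).dist_eq, dist_zero_right]
      have h6 := hFH0 n
      have h7 := dist_triangle4 (H n b) (F n v) (F n 0) (H n 0)
      rw [dist_comm (H n b) (F n v)] at h7
      linarith
    have h4 := n3 v le_rfl
    have h5 := n4 b hb
    have h6 := infDist_le_dist_of_mem (x := F' v) (mem_range_self (f := H') b)
    have h7 := dist_triangle4 (F' v) (F n v) (H n b) (H' b)
    rw [dist_comm (F' v) (F n v)] at h7
    linarith
  -- the closed half space
  have hhalf : NearHalf F' H' a := by
    refine ⟨M2 + 1, fun v hv => ?_⟩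
    have h3 : 0 < inner ℝ a (v + a) := by
      rw [inner_add_right, real_inner_self_eq_norm_sq, han]
      linarith
    have h4 := hopen (v + a) h3
    have h5 := lip hF'i (range H') v (v + a)
    have h6 : ‖v - (v + a)‖ = 1 := by
      rw [show v - (v + a) = -a by abel, norm_neg, han]
    linarith
  have hN : Near F' H' := hyp F' hF'L H' hH'L a han hhalf
  have hle := hM0 F' hF'L H' hH'L hN
  -- the distance at the origin
  have hge : M2 ≤ infDist (F' 0) (range H') := by
    rw [le_infDist (range_nonempty H')]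
    rintro y ⟨b, rfl⟩
    have h3 : Tendsto (fun n => dist (F n 0) (H n b)) (hyperfilter ℕ : Filter ℕ)
        (𝓝 (dist (F' 0) (H' b))) :=
      (tendsto_pi_nhds.1 hF't 0).dist (tendsto_pi_nhds.1 hH't b)
    refine ge_of_tendsto h3 (Eventually.of_forall fun n => ?_)
    have h4 := hz1 (n + 1)
    have h5 := hD n 0
    rw [add_zero] at h5
    rw [← h5] at h4
    exact h4.trans (infDist_le_dist_of_mem (mem_range_self b))
  linarith

end Pool.Agent.Y363.HB
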